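import Mathlib
import Pool.Agent.H36.S2.T8

namespace Pool.Agent.Results.MP_85c4d1_al.SolubleAndChernikov

/-- Let `G = A B`, where `A` and `B` are Chernikov groups each having an abelian subgroup of index
at most two. Then `G` is soluble, and `G` is a Chernikov group: it has an abelian divisible normal
subgroup `D` of finite index with the minimal condition. -/
theorem result (G : Type) [Group G] (A B : Subgroup G)
    (hfac : ∀ g : G, ∃ a ∈ A, ∃ b ∈ B, g = a * b)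
    (hA : ∃ H : Subgroup G, H ≤ A ∧ (∀ x ∈ H, ∀ y ∈ H, x * y = y * x) ∧
      (H.subgroupOf A).index ≠ 0 ∧ WellFoundedLT (Subgroup ↥H))
    (hB : ∃ H : Subgroup G, H ≤ B ∧ (∀ x ∈ H, ∀ y ∈ H, x * y = y * x) ∧
      (H.subgroupOf B).index ≠ 0 ∧ WellFoundedLT (Subgroup ↥H))
    (hA2 : ∃ K : Subgroup G, K ≤ A ∧ (∀ x ∈ K, ∀ y ∈ K, x * y = y * x) ∧
      (K.subgroupOf A).index ≠ 0 ∧ (K.subgroupOf A).index ≤ 2)
    (hB2 : ∃ K : Subgroup G, K ≤ B ∧ (∀ x ∈ K, ∀ y ∈ K, x * y = y * x) ∧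
      (K.subgroupOf B).index ≠ 0 ∧ (K.subgroupOf B).index ≤ 2) :
    Group.IsSolvable G ∧ ∃ D : Subgroup G, D.Normal ∧ (∀ x ∈ D, ∀ y ∈ D, x * y = y * x) ∧
      (∀ x ∈ D, ∀ n : ℕ, 0 < n → ∃ y ∈ D, y ^ n = x) ∧ D.index ≠ 0 ∧
      WellFoundedLT (Subgroup ↥D) :=
  H68.CK.solvable_all H36.S2.t8 G A B hfac hA hB hA2 hB2

end Pool.Agent.Results.MP_85c4d1_al.SolubleAndChernikov
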